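import Pool.Agent.W780.BB.Stm

set_option autoImplicit false

/-!
The set of directions is invariant under the reflections.
-/

namespace Pool.Agent.W101.BB

open Complex Set MeasureTheory Filter Topology Pool.Agent.W780.PG Pool.Agent.W780.BB

open scoped Real ComplexConjugate

variable {n : ℕ}

/-- rate of change of the side function along `dir θ` -/
noncomputable def rate (p : Fin (n + 3) → ℂ) (i : Fin (n + 3)) (θ : ℝ) : ℝ :=
  (conj (p (i + 1) - p i) * dir θ).im

lemma sf_add (p : Fin (n + 3) → ℂ) (i : Fin (n + 3)) (z : ℂ) (s θ : ℝ) :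
    sf p i (z + s • dir θ) = sf p i z + s * rate p i θ := by
  unfold sf lft rate
  simp only [real_smul, mul_im, add_re, sub_re, add_im, sub_im, conj_re, conj_im, mul_re,
    ofReal_re, ofReal_im]
  ring

lemma rate_eq (p : Fin (n + 3) → ℂ) (i : Fin (n + 3)) (θ : ℝ) :
    rate p i θ = ‖p (i + 1) - p i‖ * Real.sin (θ - tau p i) := by
  have h1 : conj (p (i + 1) - p i) = (‖p (i + 1) - p i‖ : ℂ) * exp (-(tau p i : ℂ) * I) := by
    conv_lhs => rw [← norm_mul_exp_arg_mul_I (p (i + 1) - p i)]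
    rw [map_mul, conj_ofReal, ← exp_conj, map_mul, conj_ofReal, conj_I]
    congr 2
    unfold tau
    ring
  unfold rate dir
  rw [h1, mul_assoc, ← exp_add]
  have h2 : -(tau p i : ℂ) * I + (θ : ℂ) * I = ((θ - tau p i : ℝ) : ℂ) * I := by
    push_cast; ring
  rw [h2, im_ofReal_mul, exp_ofReal_mul_I_im]

lemma rate_refl (p : Fin (n + 3) → ℂ) (i : Fin (n + 3)) (θ : ℝ) :
    rate p i (2 * tau p i - θ) = - rate p i θ := by
  rw [rate_eq, rate_eq]
  have : 2 * tau p i - θ - tau p i = -(θ - tau p i) := by ring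
  rw [this, Real.sin_neg]
  ring

lemma cont_sf (p : Fin (n + 3) → ℂ) (i : Fin (n + 3)) : Continuous (sf p i) := by
  unfold sf lft
  fun_prop

/-- `Θ` describes the states with direction `θ` in `S` -/
def Gd (p : Fin (n + 3) → ℂ) (S : Set (ℂ × ℝ)) (Θ : Set ℝ) (θ : ℝ) : Prop :=
  ∀ᵐ z : ℂ, z ∈ reg p → ((z, θ) ∈ S ↔ θ ∈ Θ)

lemma first (hB : S_Basic) (hH : S_Hull) {p : Fin (n + 3) → ℂ} (hp : IsConvexPolygon p)
    {S : Set (ℂ × ℝ)} (hS : IsInvariant p S) {Θ : Set ℝ} (i : Fin (n + 3)) {θ : ℝ}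
    (hr : rate p i θ < 0) (h1 : Gd p S Θ θ) (h2 : Gd p S Θ (2 * tau p i - θ)) :
    (θ ∈ Θ ↔ 2 * tau p i - θ ∈ Θ) := by
  obtain ⟨-, hop, -, -, -, -, -, -, hfr, -, hside, hvs, hsd, -⟩ := hB n p hp
  have hreg := (hH n p hp).2
  set θ' := 2 * tau p i - θ with hθ'
  have hr' : rate p i θ' = - rate p i θ := rate_refl p i θ
  -- a point of the side
  obtain ⟨y0, hy0⟩ : (side p i).Nonempty := by
    unfold side
    exact ⟨_, ⟨1 / 2, 1 / 2, by norm_num, by norm_num, by norm_num, rfl⟩⟩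
  obtain ⟨-, hy0i, hy0k⟩ := hsd i y0 hy0
  have hy0i' : sf p i y0 = 0 := hy0i
  -- a neighbourhood in which everything is decided by the side `i`
  have hnb : ∀ᶠ z in 𝓝 y0, (∀ k, k ≠ i → 0 < sf p k z) ∧ ∀ k, z ≠ p k := by
    refine Filter.Eventually.and ?_ ?_
    · refine Filter.eventually_all.2 fun k => ?_
      by_cases hk : k = i
      · exact Filter.Eventually.of_forall fun z h => absurd hk h
      · have := (cont_sf p k).continuousAt.eventually (lt_mem_nhds (hy0k k hk))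
        filter_upwards [this] with z hz _ using hz
    · refine Filter.eventually_all.2 fun k => ?_
      exact eventually_ne_nhds fun h => hvs i k (h ▸ hy0)
  have hneg : -rate p i θ ≠ 0 := by linarith
  set κ : ℝ := (- rate p i θ)⁻¹ with hκ
  have hκ0 : 0 < κ := inv_pos.2 (by linarith)
  have hκr : κ * rate p i θ = -1 := by
    rw [hκ, inv_mul_eq_div, div_eq_iff hneg]; ring
  set Y : ℂ → ℂ := fun z => z + (κ * sf p i z) • dir θ with hY
  set Φ : ℂ → ℂ := fun z => Y z + (κ * sf p i z) • dir θ' with hΦ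
  have hYc : Continuous Y := by
    have := cont_sf p i
    exact continuous_id.add ((continuous_const.mul this).smul continuous_const)
  have hΦc : Continuous Φ := by
    have := cont_sf p i
    exact hYc.add ((continuous_const.mul this).smul continuous_const)
  have hY0 : Y y0 = y0 := by rw [hY]; simp [hy0i']
  have hΦ0 : Φ y0 = y0 := by rw [hΦ]; simp [hy0i', hY0]
  have hV : ∀ᶠ z in 𝓝 y0, ((∀ k, k ≠ i → 0 < sf p k (Y z)) ∧ ∀ k, Y z ≠ p k) ∧
      ((∀ k, k ≠ i → 0 < sf p k (Φ z)) ∧ ∀ k, Φ z ≠ p k) := by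
    refine Filter.Eventually.and ?_ ?_
    · have h3 : Tendsto Y (𝓝 y0) (𝓝 y0) := by
        have := hYc.continuousAt (x := y0)
        rwa [ContinuousAt, hY0] at this
      exact h3.eventually hnb
    · have h3 : Tendsto Φ (𝓝 y0) (𝓝 y0) := by
        have := hΦc.continuousAt (x := y0)
        rwa [ContinuousAt, hΦ0] at this
      exact h3.eventually hnb
  obtain ⟨V, hVs, hVo, hyV⟩ := mem_nhds_iff.1 hV
  have hW : (V ∩ reg p).Nonempty := by
    have : y0 ∈ closure (reg p) := frontier_subset_closure (hfr i hy0)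
    exact mem_closure_iff.1 this V hVo hyV
  have hWo : IsOpen (V ∩ reg p) := hVo.inter hop
  -- the inverse map
  set Ψ : ℂ → ℂ := fun z => z - (κ * sf p i z) • (dir θ + dir θ') with hΨ
  have hsfY : ∀ z, sf p i (Y z) = 0 := by
    intro z
    rw [hY]
    simp only
    rw [sf_add]
    linear_combination (sf p i z) * hκr
  have hsfΦ : ∀ z, sf p i (Φ z) = sf p i z := by
    intro z
    rw [hΦ]
    simp only
    rw [sf_add, hsfY, hr']
    linear_combination -(sf p i z) * hκr
  have hΨΦ : ∀ z, Ψ (Φ z) = z := by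
    intro z
    rw [hΨ]
    simp only
    rw [hsfΦ, hΦ, hY]
    simp only
    rw [smul_add]
    abel
  have hΨd : Differentiable ℝ Ψ := by
    have h3 : Differentiable ℝ (sf p i) := by
      have e : sf p i = fun z => (conj (p (i + 1) - p i) * (z - p i)).im := rfl
      rw [e]
      exact Complex.imCLM.differentiable.comp
        ((differentiable_const _).mul (differentiable_id.sub_const _))
    exact differentiable_id.sub ((h3.const_mul _).smul_const _)
  -- the images of null sets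
  have h2' : ∀ᵐ z : ℂ, Φ z ∈ reg p → ((Φ z, θ') ∈ S ↔ θ' ∈ Θ) := by
    unfold Gd at h2
    rw [ae_iff] at h2 ⊢
    have h4 := addHaar_image_eq_zero_of_differentiableOn_of_addHaar_eq_zero volume
      (hΨd.differentiableOn (s := {a | ¬ (a ∈ reg p → ((a, θ') ∈ S ↔ θ' ∈ Θ))})) h2
    refine measure_mono_null ?_ h4
    intro z hz
    exact ⟨Φ z, hz, hΨΦ z⟩
  obtain ⟨z, ⟨hzV, hzr⟩, hz1, hz2⟩ : ∃ z ∈ V ∩ reg p,
      (z ∈ reg p → ((z, θ) ∈ S ↔ θ ∈ Θ)) ∧ (Φ z ∈ reg p → ((Φ z, θ') ∈ S ↔ θ' ∈ Θ)) := by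
    by_contra hcon
    have h5 := h1.and h2'
    have h6 : volume (V ∩ reg p) = 0 := by
      rw [ae_iff] at h5
      exact measure_mono_null (fun z hz hP => hcon ⟨z, hz, hP⟩) h5
    exact (hWo.measure_pos volume hW).ne' h6
  have hzi : 0 < sf p i z := hzr i
  have hs : 0 < κ * sf p i z := mul_pos hκ0 hzi
  obtain ⟨⟨hY1, hY2⟩, hΦ1, -⟩ := hVs hzV
  have hΦr : Φ z ∈ reg p := by
    intro k
    by_cases hk : k = i
    · subst hk
      have := hsfΦ z
      unfold sf at this hzi
      rw [this]; exact hzi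
    · exact hΦ1 k hk
  have hYs : Y z ∈ openSegment ℝ (p i) (p (i + 1)) := by
    refine (hside (Y z) ?_ i (hsfY z) hY2).1
    intro k
    by_cases hk : k = i
    · subst hk
      exact (hsfY z).ge
    · exact (hY1 k hk).le
  have hback : Y z - (κ * sf p i z) • dir θ = z := by
    rw [hY]; simp
  have hre := hS.reflect i (Y z) hYs θ (κ * sf p i z) (κ * sf p i z) hs hs
    (by rw [hback, hreg]; exact hzr) (by rw [hreg]; exact hΦr)
  rw [hback] at hre
  exact (hz1 hzr).symm.trans (hre.trans (hz2 hΦr))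

/-- for almost every direction the set is described -/
lemma ae_good (hH : S_Hull) {p : Fin (n + 3) → ℂ} (hp : IsConvexPolygon p)
    {S : Set (ℂ × ℝ)} (hS : IsInvariant p S) {Θ : Set ℝ}
    (hΘp : ∀ θ, θ + 2 * π ∈ Θ ↔ θ ∈ Θ)
    (h0 : volume {x : ℂ × ℝ | x ∈ phase p ∧ ¬ (x ∈ S ↔ x.2 ∈ Θ)} = 0) :
    ∀ᵐ θ : ℝ, Gd p S Θ θ := by
  have hreg := (hH n p hp).2
  have h1 : ∀ᵐ x : ℂ × ℝ, x ∈ phase p → (x ∈ S ↔ x.2 ∈ Θ) := by
    rw [ae_iff]
    convert h0 using 2
    ext x
    simp only [Classical.not_imp]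
  have h2 : ∀ᵐ y ∂((volume : Measure ℝ).prod (volume : Measure ℂ)),
      y.swap ∈ phase p → (y.swap ∈ S ↔ y.swap.2 ∈ Θ) :=
    (Measure.measurePreserving_swap (μ := (volume : Measure ℝ))
      (ν := (volume : Measure ℂ))).quasiMeasurePreserving.ae h1
  have h3 := Measure.ae_ae_of_ae_prod h2
  have h4 : ∀ᵐ θ : ℝ, θ ∈ Ico 0 (2 * π) → Gd p S Θ θ := by
    filter_upwards [h3] with θ hθ hI
    filter_upwards [hθ] with z hz hzr
    exact hz ⟨by rw [hreg]; exact hzr, hI⟩
  -- periodicity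
  have hper : ∀ θ, Gd p S Θ (θ + 2 * π) ↔ Gd p S Θ θ := by
    intro θ
    unfold Gd
    simp only [hS.periodic, hΘp]
  have hperz : ∀ (k : ℤ) θ, Gd p S Θ (θ + k • (2 * π)) ↔ Gd p S Θ θ := by
    intro k
    induction k using Int.induction_on with
    | zero => intro θ; simp
    | succ k ih =>
      intro θ
      rw [add_zsmul, one_zsmul, ← add_assoc, hper, ih]
    | pred k ih =>
      intro θ
      rw [← hper, sub_zsmul, one_zsmul]
      have : θ + ((-(k:ℤ)) • (2 * π) + -(2 * π)) + 2 * π = θ + (-(k:ℤ)) • (2 * π) := by ring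
      rw [this, ih]
  have h5 : ∀ᵐ θ : ℝ, ∀ k : ℤ, θ + k • (2 * π) ∈ Ico 0 (2 * π) → Gd p S Θ (θ + k • (2 * π)) := by
    rw [ae_all_iff]
    intro k
    exact (measurePreserving_add_right (volume : Measure ℝ) (k • (2 * π))).quasiMeasurePreserving.ae
      h4
  filter_upwards [h5] with θ hθ
  obtain ⟨k, hk, -⟩ := existsUnique_add_zsmul_mem_Ico Real.two_pi_pos θ 0
  rw [zero_add] at hk
  exact (hperz k θ).1 (hθ k hk)

lemma ae_rate {p : Fin (n + 3) → ℂ} (i : Fin (n + 3)) (hne : p (i + 1) ≠ p i) :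
    ∀ᵐ θ : ℝ, rate p i θ ≠ 0 := by
  rw [ae_iff]
  refine Set.Countable.measure_zero ?_ _
  refine (Set.countable_range fun k : ℤ => (k : ℝ) * π + tau p i).mono ?_
  intro θ hθ
  simp only [ne_eq, not_not, Set.mem_ofPred_eq] at hθ
  rw [rate_eq, mul_eq_zero, norm_eq_zero, sub_eq_zero] at hθ
  rcases hθ with h | h
  · exact absurd h hne
  · obtain ⟨k, hk⟩ := Real.sin_eq_zero_iff.1 h
    exact ⟨k, by simp only; linarith⟩

theorem refl (hB : S_Basic) (hH : S_Hull) : S_Refl := by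
  intro n p hp S _ hS Θ _ hΘp h0 i
  have hg := ae_good hH hp hS hΘp h0
  have hmp : MeasurePreserving (fun θ : ℝ => 2 * tau p i - θ) volume volume :=
    Measure.measurePreserving_sub_left volume _
  have hg' : ∀ᵐ θ : ℝ, Gd p S Θ (2 * tau p i - θ) := hmp.quasiMeasurePreserving.ae hg
  have hne : p (i + 1) ≠ p i := by
    intro h
    have := (hB n p hp).1 h
    have h1 : (1 : Fin (n + 3)) = 0 := by
      have h2 : i + 1 = i + 0 := by rw [this, add_zero]
      exact add_left_cancel h2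
    exact absurd h1 (by simp)
  filter_upwards [hg, hg', ae_rate i hne] with θ h1 h2 h3
  rcases lt_or_gt_of_ne h3 with h | h
  · exact (first hB hH hp hS i h h1 h2).symm
  · have h4 : rate p i (2 * tau p i - θ) < 0 := by rw [rate_refl]; linarith
    have h5 : 2 * tau p i - (2 * tau p i - θ) = θ := by ring
    have h6 := first hB hH hp hS i h4 h2 (by rw [h5]; exact h1)
    rw [h5] at h6
    exact h6

end Pool.Agent.W101.BB
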